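import Mathlib
import Pool.Agent.Q152.ZP.Main

/-!
# There is no good permutation of the integers modulo 27

A permutation of `ZMod n` is good when it sends every triple `(a, b, c)`, not all equal, with
`a + c - 2 b` at distance at most one from zero to a triple at distance at least two from being a
progression. The question for `n = 27` is answered in the negative. The proof is a backtracking
search with pruning by differences between neighbouring values (in both directions), evaluated by
the kernel; the soundness of the search is proved in `Pool.Agent.Q152.ZP.Sound`.
-/

namespace Pool.Agent.Results.MP_147277_co.NoneForTwentySeven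

open Pool.Agent.Q152.ZP

theorem nr_iff (z : ZMod 27) : nr z ↔ z.valMinAbs.natAbs ≤ 1 := by
  revert z; decide

/-- There is no permutation `π` of the integers modulo 27 such that `|[π a + π c - 2 π b]| ≥ 2` for
all `a, b, c`, not all equal, with `|[a + c - 2 b]| ≤ 1`, where `[m]` is the least absolute residue
modulo 27. -/
theorem result : ¬ ∃ π : Equiv.Perm (ZMod 27), ∀ a b c : ZMod 27, ¬ (a = b ∧ b = c) →
    (a + c - 2 * b).valMinAbs.natAbs ≤ 1 → 2 ≤ (π a + π c - 2 * π b).valMinAbs.natAbs := by
  rintro ⟨π, h⟩
  apply none π
  refine ⟨π.surjective, ?_, ?_, ?_⟩
  · intro a b c h1 h2 h3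
    have h4 := h a b c h1 ((nr_iff _).1 h2)
    have h5 := (nr_iff _).1 h3
    omega
  · intro a b _ h'
    exact absurd h' (by simp)
  · intro a b _ h'
    exact absurd h' (by simp)

end Pool.Agent.Results.MP_147277_co.NoneForTwentySeven
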